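import Pool.Agent.Work.MP_bb13ef_an.ACL.Stmts

/-!
# Strongly regular spaces with numerical index one contain `ℓ₁`: definitions and statements
-/

set_option autoImplicit false

open scoped ZeroAtInfty

namespace MPbb13ef

/-- Numerical index one, in the form of the frozen statement: the numerical radius of every bounded
operator equals its norm. -/
def NI1 (X : Type) [NormedAddCommGroup X] [NormedSpace ℝ X] : Prop :=
  ∀ (T : X →L[ℝ] X) (r : ℝ), r < ‖T‖ →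
    ∃ (x : X) (f : X →L[ℝ] ℝ), ‖x‖ = 1 ∧ ‖f‖ = 1 ∧ f x = 1 ∧ r < |f (T x)|

/-- A set is strongly regular if every nonempty closed bounded convex subset `C` has, for every
`δ > 0`, a convex combination of slices of `C` of diameter at most `δ`; here for the whole space. -/
def StronglyRegular (X : Type) [NormedAddCommGroup X] [NormedSpace ℝ X] : Prop :=
  ∀ C : Set X, C.Nonempty → IsClosed C → Bornology.IsBounded C → Convex ℝ C →
    ∀ δ : ℝ, 0 < δ → ∃ (n : ℕ) (l : Fin n → ℝ) (g : Fin n → (X →L[ℝ] ℝ)) (a : Fin n → ℝ),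
      (∀ i, 0 ≤ l i) ∧ ∑ i, l i = 1 ∧ (∀ i, ∃ x ∈ C, a i < g i x) ∧
      ∀ x y : Fin n → X, (∀ i, x i ∈ C ∧ a i < g i (x i)) → (∀ i, y i ∈ C ∧ a i < g i (y i)) →
        ‖∑ i, l i • (x i - y i)‖ ≤ δ

section

variable {X : Type} [NormedAddCommGroup X] [NormedSpace ℝ X]

/-- `x` is in the slice of the unit ball given by `g` and `a`. -/
def InS (g : X →L[ℝ] ℝ) (a : ℝ) (x : X) : Prop := ‖x‖ ≤ 1 ∧ a < g x

/-- The convex combination with weights `l i` of the (nonempty) slices of the unit ball given by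
`g i` and `a i` has diameter at most `δ`. -/
def Small {n : ℕ} (l : Fin n → ℝ) (g : Fin n → (X →L[ℝ] ℝ)) (a : Fin n → ℝ) (δ : ℝ) : Prop :=
  (∀ i, 0 ≤ l i) ∧ ∑ i, l i = 1 ∧ (∀ i, ∃ x, InS (g i) (a i) x) ∧
    ∀ x y : Fin n → X, (∀ i, InS (g i) (a i) (x i)) → (∀ i, InS (g i) (a i) (y i)) →
      ‖∑ i, l i • (x i - y i)‖ ≤ δ

/-- The points of convex combinations of slices of the unit ball of diameter at most `δ`; only
combinations of points of the set `Y` are taken. -/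
def CSPin (Y : Set X) (δ : ℝ) : Set X :=
  {u | ∃ (n : ℕ) (l : Fin n → ℝ) (g : Fin n → (X →L[ℝ] ℝ)) (a : Fin n → ℝ) (x : Fin n → X),
    Small l g a δ ∧ (∀ i, InS (g i) (a i) (x i) ∧ x i ∈ Y) ∧ u = ∑ i, l i • x i}

/-- The finite form of the conclusion of the compactness argument. -/
def Good (f : X →L[ℝ] ℝ) : Prop :=
  ‖f‖ ≤ 1 ∧ ∀ (n : ℕ) (l : Fin n → ℝ) (g : Fin n → (X →L[ℝ] ℝ)) (a : Fin n → ℝ) (δ : ℝ),
    Small l g a δ → ∀ x : Fin n → X, (∀ i, InS (g i) (a i) (x i)) →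
      ∑ i, l i * (1 - |f (x i)|) ≤ 2 * δ

end

/-- The unit ball is, for every `δ > 0`, the closed convex hull of the convex combinations of slices
of the unit ball of diameter at most `δ`. -/
def SCSGen (X : Type) [NormedAddCommGroup X] [NormedSpace ℝ X] : Prop :=
  ∀ δ : ℝ, 0 < δ → Metric.closedBall (0 : X) 1 ⊆ closure (convexHull ℝ (CSPin (X := X) Set.univ δ))

/-- The alternative Daugavet property. -/
def ADP (X : Type) [NormedAddCommGroup X] [NormedSpace ℝ X] : Prop :=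
  ∀ (w : X) (g : X →L[ℝ] ℝ) (a : ℝ), (∃ z, InS g a z) → ∀ ε : ℝ, 0 < ε →
    ∃ (y : X) (f : X →L[ℝ] ℝ), InS g a y ∧ ‖f‖ ≤ 1 ∧ ‖w‖ - ε < f w ∧ 1 - ε < |f y|

/-- The alternative Daugavet property, second form. -/
def ADPc (X : Type) [NormedAddCommGroup X] [NormedSpace ℝ X] : Prop :=
  ∀ x y : X, ‖x‖ ≤ 1 → ‖y‖ ≤ 1 → ∀ ε : ℝ, 0 < ε →
    y ∈ closure (convexHull ℝ {z : X | ‖z‖ ≤ 1 ∧ ∃ s : Bool, 1 + ‖x‖ - ε < ‖x + sg s • z‖})

/-! ### The alternative Daugavet property -/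

/-- NIA -/
def S_NIA : Prop := ∀ (X : Type) [NormedAddCommGroup X] [NormedSpace ℝ X], NI1 X → ADP X

/-- ADPC -/
def S_ADPC : Prop := ∀ (X : Type) [NormedAddCommGroup X] [NormedSpace ℝ X],
  (ADP X → ADPc X) ∧ (ADPc X → ADP X)

/-- ITER: finitely many slices -/
def S_ITER : Prop := ∀ (X : Type) [NormedAddCommGroup X] [NormedSpace ℝ X], ADP X →
  ∀ (x : X) (ι : Type) [Finite ι] (g : ι → (X →L[ℝ] ℝ)) (a : ι → ℝ),
    (∀ i, ∃ z, InS (g i) (a i) z) → ∀ ε : ℝ, 0 < ε →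
    ∃ (f : X →L[ℝ] ℝ) (y : ι → X), ‖f‖ ≤ 1 ∧ ‖x‖ - ε < f x ∧
      ∀ i, InS (g i) (a i) (y i) ∧ 1 - ε < |f (y i)|

/-- MIX: exchanging the points of one sign -/
def S_MIX : Prop := ∀ (X : Type) [NormedAddCommGroup X] [NormedSpace ℝ X] (n : ℕ)
  (l : Fin n → ℝ) (g : Fin n → (X →L[ℝ] ℝ)) (a : Fin n → ℝ) (δ : ℝ), Small l g a δ →
  ∀ (f : X →L[ℝ] ℝ) (ε : ℝ) (y : Fin n → X), ‖f‖ ≤ 1 →
    (∀ i, InS (g i) (a i) (y i) ∧ 1 - ε < |f (y i)|) →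
    ∀ x : Fin n → X, (∀ i, InS (g i) (a i) (x i)) → ∑ i, l i * (1 - |f (x i)|) ≤ 2 * δ + ε

/-- BD: the compactness argument -/
def S_BD : Prop := ∀ (X : Type) [NormedAddCommGroup X] [NormedSpace ℝ X], ADP X →
  ∀ x : X, ∃ f : X →L[ℝ] ℝ, Good f ∧ f x = ‖x‖

/-- SPR: good functionals are spears -/
def S_SPR : Prop := ∀ (X : Type) [NormedAddCommGroup X] [NormedSpace ℝ X], SCSGen X →
  ∀ f : X →L[ℝ] ℝ, Good f → ‖f‖ = 1 → Spear f

/-! ### Strong regularity -/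

/-- BOU: Bourgain's lemma for two functionals -/
def S_BOU : Prop := ∀ (X : Type) [NormedAddCommGroup X] [NormedSpace ℝ X] (g h : X →L[ℝ] ℝ)
  (z : X), ‖z‖ ≤ 1 → ∀ η : ℝ, 0 < η →
  ∃ (n : ℕ) (l : Fin n → ℝ) (k : Fin n → (X →L[ℝ] ℝ)) (a : Fin n → ℝ),
    (∀ i, 0 ≤ l i) ∧ ∑ i, l i = 1 ∧ (∀ i, ∃ x, InS (k i) (a i) x) ∧
    ∀ x : Fin n → X, (∀ i, InS (k i) (a i) (x i)) →
      |g (∑ i, l i • x i) - g z| < η ∧ |h (∑ i, l i • x i) - h z| < η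

/-- DEN1: slices of the unit ball contain small convex combinations of slices -/
def S_DEN1 : Prop := ∀ (X : Type) [NormedAddCommGroup X] [NormedSpace ℝ X], StronglyRegular X →
  ∀ (h : X →L[ℝ] ℝ) (b : ℝ), (∃ z, InS h b z) → ∀ δ : ℝ, 0 < δ →
    ∃ u ∈ CSPin (X := X) Set.univ δ, b < h u

/-- DEN2 -/
def S_DEN2 : Prop := ∀ (X : Type) [NormedAddCommGroup X] [NormedSpace ℝ X],
  (∀ (h : X →L[ℝ] ℝ) (b : ℝ), (∃ z, InS h b z) → ∀ δ : ℝ, 0 < δ →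
    ∃ u ∈ CSPin (X := X) Set.univ δ, b < h u) → SCSGen X

/-- NC0: strongly regular spaces do not contain `c₀` -/
def S_NC0 : Prop := ∀ (X : Type) [NormedAddCommGroup X] [NormedSpace ℝ X], StronglyRegular X →
  ¬ HasC0 X

/-! ### Separable reduction -/

/-- CLO: closing off -/
def S_CLO : Prop := ∀ (X : Type) [NormedAddCommGroup X] [NormedSpace ℝ X]
  (Z : X → X → ℕ → Set X), (∀ x y k, (Z x y k).Countable) → ∀ A : Set X, A.Countable →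
  ∃ (Y : Submodule ℝ X) (D : Set X), IsClosed (Y : Set X) ∧
    TopologicalSpace.IsSeparable (Y : Set X) ∧ A ⊆ (Y : Set X) ∧ D ⊆ (Y : Set X) ∧
    (∀ x ∈ D, ‖x‖ ≤ 1) ∧ (∀ y ∈ Y, ‖y‖ ≤ 1 → ∀ ε : ℝ, 0 < ε → ∃ x ∈ D, ‖y - x‖ < ε) ∧
    ∀ x ∈ D, ∀ y ∈ D, ∀ k, Z x y k ⊆ (Y : Set X)

/-- SEPA: the alternative Daugavet property is separably determined -/
def S_SEPA : Prop := ∀ (X : Type) [NormedAddCommGroup X] [NormedSpace ℝ X], ADPc X →
  ∃ Z : X → X → ℕ → Set X, (∀ x y k, (Z x y k).Countable) ∧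
    ∀ (Y : Submodule ℝ X) (D : Set X), D ⊆ (Y : Set X) → (∀ x ∈ D, ‖x‖ ≤ 1) →
      (∀ y ∈ Y, ‖y‖ ≤ 1 → ∀ ε : ℝ, 0 < ε → ∃ x ∈ D, ‖y - x‖ < ε) →
      (∀ x ∈ D, ∀ y ∈ D, ∀ k, Z x y k ⊆ (Y : Set X)) → ADPc Y

/-- SEPH: generation by small convex combinations of slices is separably determined -/
def S_SEPH : Prop := ∀ (X : Type) [NormedAddCommGroup X] [NormedSpace ℝ X], SCSGen X →
  ∃ Z : X → X → ℕ → Set X, (∀ x y k, (Z x y k).Countable) ∧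
    ∀ (Y : Submodule ℝ X) (D : Set X), D ⊆ (Y : Set X) → (∀ x ∈ D, ‖x‖ ≤ 1) →
      (∀ y ∈ Y, ‖y‖ ≤ 1 → ∀ ε : ℝ, 0 < ε → ∃ x ∈ D, ‖y - x‖ < ε) →
      (∀ x ∈ D, ∀ y ∈ D, ∀ k, Z x y k ⊆ (Y : Set X)) → SCSGen Y

/-- SEP: the separable reduction -/
def S_SEP : Prop := ∀ (X : Type) [NormedAddCommGroup X] [NormedSpace ℝ X], ADPc X → SCSGen X →
  ∀ A : Set X, A.Countable → ∃ Y : Submodule ℝ X, IsClosed (Y : Set X) ∧
    TopologicalSpace.SeparableSpace Y ∧ A ⊆ (Y : Set X) ∧ ADPc Y ∧ SCSGen Y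

/-- INF: a countable set with infinite-dimensional span -/
def S_INF : Prop := ∀ (X : Type) [NormedAddCommGroup X] [NormedSpace ℝ X],
  ¬ FiniteDimensional ℝ X → ∃ A : Set X, A.Countable ∧
    ∀ Y : Submodule ℝ X, A ⊆ (Y : Set X) → ¬ FiniteDimensional ℝ Y

/-- HAS: copies in subspaces -/
def S_HAS : Prop := ∀ (X : Type) [NormedAddCommGroup X] [NormedSpace ℝ X] (Y : Submodule ℝ X),
  (HasC0 Y → HasC0 X) ∧ (HasL1 Y → HasL1 X)

/-! ### The theorem -/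

/-- SET: a boundary of spears gives a setting -/
def S_SET : Prop := ∀ (X : Type) [NormedAddCommGroup X] [NormedSpace ℝ X], (∃ x : X, x ≠ 0) →
  (∀ x : X, x ≠ 0 → ∃ f : X →L[ℝ] ℝ, Spear f ∧ f x = ‖x‖) → Setting {f : X →L[ℝ] ℝ | Spear f} ∅

/-- FIN1: every point attains its norm at a spear -/
def S_FIN1 : Prop := ∀ (X : Type) [NormedAddCommGroup X] [NormedSpace ℝ X], ADP X → SCSGen X →
  ∀ x : X, x ≠ 0 → ∃ f : X →L[ℝ] ℝ, Spear f ∧ f x = ‖x‖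

/-- FIN2: copies of `c₀` or `ℓ₁` -/
def S_FIN2 : Prop := ∀ (X : Type) [NormedAddCommGroup X] [NormedSpace ℝ X] [CompleteSpace X],
  ¬ FiniteDimensional ℝ X → NI1 X → SCSGen X → HasC0 X ∨ HasL1 X

/-- FIN3: strongly regular spaces -/
def S_FIN3 : Prop := ∀ (X : Type) [NormedAddCommGroup X] [NormedSpace ℝ X] [CompleteSpace X],
  ¬ FiniteDimensional ℝ X → NI1 X → StronglyRegular X → HasL1 X

end MPbb13ef
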