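import Mathlib
import Pool.Agent.Work.MP_bb13ef_an.SR.Stmts

/-!
# Strongly regular spaces do not contain `c₀`
-/

set_option autoImplicit false

open scoped ZeroAtInfty
open Filter Topology

namespace MPbb13ef

namespace NC0

/-- the unit vectors -/
noncomputable def e (N : ℕ) : C₀(ℕ, ℝ) :=
  ⟨⟨Pi.single N 1, continuous_of_discreteTopology⟩, by
    rw [cocompact_eq_cofinite]
    refine tendsto_nhds_of_eventually_eq ?_
    rw [Filter.eventually_cofinite]
    refine (Set.finite_singleton N).subset ?_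
    intro m hm
    rw [Set.mem_ofPred_eq] at hm
    by_contra hne
    exact hm (Pi.single_eq_of_ne hne _)⟩

theorem e_apply (N m : ℕ) : e N m = (Pi.single N 1 : ℕ → ℝ) m := rfl

theorem e_same (N : ℕ) : e N N = 1 := by rw [e_apply, Pi.single_eq_same]

theorem e_ne {N m : ℕ} (h : m ≠ N) : e N m = 0 := by rw [e_apply, Pi.single_eq_of_ne h]

theorem abs_le_norm (a : C₀(ℕ, ℝ)) (n : ℕ) : |a n| ≤ ‖a‖ := by
  rw [← ZeroAtInftyContinuousMap.norm_toBCF_eq_norm]
  exact a.toBCF.norm_coe_le_norm n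

theorem norm_le_of (a : C₀(ℕ, ℝ)) (B : ℝ) (hB : 0 ≤ B) (h : ∀ n, |a n| ≤ B) : ‖a‖ ≤ B := by
  rw [← ZeroAtInftyContinuousMap.norm_toBCF_eq_norm]
  exact (BoundedContinuousFunction.norm_le hB).2 h

theorem one_le_norm_e (N : ℕ) : 1 ≤ ‖e N‖ := by
  have := abs_le_norm (e N) N
  rwa [e_same, abs_one] at this

/-- changing a coordinate of a vector of the unit ball to `t` -/
theorem norm_change (y : C₀(ℕ, ℝ)) (hy : ‖y‖ ≤ 1) (N : ℕ) (t : ℝ) (ht : |t| ≤ 1) :
    ‖y - (y N) • e N + t • e N‖ ≤ 1 := by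
  refine norm_le_of _ 1 zero_le_one fun m => ?_
  have h1 : (y - (y N) • e N + t • e N) m = y m - y N * e N m + t * e N m := rfl
  rw [h1]
  by_cases hm : m = N
  · rw [hm, e_same]
    have : y N - y N * 1 + t * 1 = t := by ring
    rw [this]
    exact ht
  · rw [e_ne hm]
    have : y m - y N * 0 + t * 0 = y m := by ring
    rw [this]
    exact (abs_le_norm y m).trans hy

theorem sum_apply (F : Finset ℕ) (θ : ℕ → ℝ) (m : ℕ) :
    (∑ N ∈ F, θ N • e N : C₀(ℕ, ℝ)) m = if m ∈ F then θ m else 0 := by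
  classical
  induction F using Finset.induction_on with
  | empty => rfl
  | insert a F ha ih =>
    rw [Finset.sum_insert ha]
    have h1 : (θ a • e a + ∑ N ∈ F, θ N • e N : C₀(ℕ, ℝ)) m =
        θ a * e a m + (∑ N ∈ F, θ N • e N : C₀(ℕ, ℝ)) m := rfl
    rw [h1, ih]
    by_cases hm : m = a
    · rw [hm, e_same, if_neg ha, if_pos (Finset.mem_insert_self a F)]
      ring
    · rw [e_ne hm]
      simp [hm]

theorem tendsto_zero (φ : C₀(ℕ, ℝ) →L[ℝ] ℝ) : Tendsto (fun N => |φ (e N)|) atTop (𝓝 0) := by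
  have hs : Summable fun N => |φ (e N)| := by
    refine summable_of_sum_le (c := ‖φ‖) (fun _ => abs_nonneg _) fun F => ?_
    have h1 : ∑ N ∈ F, |φ (e N)| = φ (∑ N ∈ F, (SignType.sign (φ (e N)) : ℝ) • e N) := by
      rw [map_sum]
      refine Finset.sum_congr rfl fun N _ => ?_
      rw [map_smul, smul_eq_mul]
      exact (sign_mul_self _).symm
    rw [h1]
    refine (le_abs_self _).trans ?_
    have h2 := φ.le_opNorm (∑ N ∈ F, (SignType.sign (φ (e N)) : ℝ) • e N)
    rw [Real.norm_eq_abs] at h2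
    refine h2.trans ?_
    have h3 : ‖∑ N ∈ F, (SignType.sign (φ (e N)) : ℝ) • e N‖ ≤ 1 := by
      refine norm_le_of _ 1 zero_le_one fun m => ?_
      rw [sum_apply]
      split_ifs
      · rcases SignType.trichotomy (SignType.sign (φ (e m))) with h | h | h <;> rw [h] <;> simp
      · simp
    calc ‖φ‖ * ‖∑ N ∈ F, (SignType.sign (φ (e N)) : ℝ) • e N‖ ≤ ‖φ‖ * 1 :=
          mul_le_mul_of_nonneg_left h3 (ContinuousLinearMap.opNorm_nonneg φ)
      _ = ‖φ‖ := mul_one _
  exact hs.tendsto_atTop_zero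

end NC0

theorem prf_NC0 : S_NC0 := by
  intro X _ _ hreg hc0
  obtain ⟨S, c, hc, hS⟩ := hc0
  set K : Set X := S '' Metric.closedBall 0 1 with hK
  have hKconv : Convex ℝ K := (convex_closedBall _ _).linear_image (S : C₀(ℕ, ℝ) →ₗ[ℝ] X)
  obtain ⟨n, l, g, a, hl0, hl1, hne, hsmall⟩ := hreg (closure K)
    (((Metric.nonempty_closedBall.2 zero_le_one).image S).closure) isClosed_closure
    ((S.lipschitz.isBounded_image Metric.isBounded_closedBall).closure) hKconv.closure c hc
  -- points of the slices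
  have hpts : ∀ i, ∃ y : C₀(ℕ, ℝ), ‖y‖ ≤ 1 ∧ a i < g i (S y) := by
    intro i
    obtain ⟨x, hx, hax⟩ := hne i
    have hopen : IsOpen {x : X | a i < g i x} := isOpen_lt continuous_const (g i).continuous
    obtain ⟨z, hz1, hz2⟩ := mem_closure_iff.1 hx _ hopen hax
    obtain ⟨y, hy, rfl⟩ := hz2
    exact ⟨y, mem_closedBall_zero_iff.1 hy, hz1⟩
  choose y hy1 hy2 using hpts
  -- a coordinate where all functionals are small
  have hN : ∀ᶠ N in atTop, ∀ i, 2 * |g i (S (NC0.e N))| < g i (S (y i)) - a i := by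
    rw [Filter.eventually_all]
    intro i
    have h1 := (NC0.tendsto_zero ((g i).comp S)).const_mul 2
    rw [mul_zero] at h1
    exact h1.eventually (gt_mem_nhds (by have := hy2 i; linarith))
  obtain ⟨N, hN⟩ := hN.exists
  have habs : ∀ i, |y i N| ≤ 1 := fun i => (NC0.abs_le_norm (y i) N).trans (hy1 i)
  have hmem : ∀ i (t : ℝ), |t| ≤ 1 →
      S (y i - (y i N) • NC0.e N + t • NC0.e N) ∈ closure K ∧
        a i < g i (S (y i - (y i N) • NC0.e N + t • NC0.e N)) := by
    intro i t ht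
    refine ⟨subset_closure ⟨_, mem_closedBall_zero_iff.2 (NC0.norm_change _ (hy1 i) N t ht), rfl⟩,
      ?_⟩
    rw [map_add, map_sub, map_smul, map_smul, map_add, map_sub, map_smul, map_smul, smul_eq_mul,
      smul_eq_mul]
    have h2 := hN i
    have h3 : |(t - y i N) * g i (S (NC0.e N))| ≤ 2 * |g i (S (NC0.e N))| := by
      rw [abs_mul]
      refine mul_le_mul_of_nonneg_right ?_ (abs_nonneg _)
      have := abs_sub t (y i N)
      have h4 := habs i
      linarith
    have h5 := neg_abs_le ((t - y i N) * g i (S (NC0.e N)))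
    nlinarith
  have hfin := hsmall (fun i => S (y i - (y i N) • NC0.e N + (1 : ℝ) • NC0.e N))
    (fun i => S (y i - (y i N) • NC0.e N + (-1 : ℝ) • NC0.e N))
    (fun i => hmem i 1 (by simp)) (fun i => hmem i (-1) (by simp))
  have hdiff : ∀ i, l i • (S (y i - (y i N) • NC0.e N + (1 : ℝ) • NC0.e N) -
      S (y i - (y i N) • NC0.e N + (-1 : ℝ) • NC0.e N)) = l i • ((2 : ℝ) • S (NC0.e N)) := by
    intro i
    congr 1
    rw [← map_sub, ← map_smul]
    congr 1
    module
  rw [Finset.sum_congr rfl fun i _ => hdiff i, ← Finset.sum_smul, hl1, one_smul, norm_smul,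
    Real.norm_eq_abs, abs_two] at hfin
  have h6 := hS (NC0.e N)
  have h7 := NC0.one_le_norm_e N
  nlinarith

end MPbb13ef
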