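import Mathlib
import Pool.Agent.Work.MP_bb13ef_an.SR.Stmts

/-!
# The alternative Daugavet property is separably determined
-/

set_option autoImplicit false

open scoped ZeroAtInfty

namespace MPbb13ef

namespace SEPA

variable {X : Type} [NormedAddCommGroup X] [NormedSpace ℝ X]

/-- the set of good points -/
def M (x : X) (k : ℕ) : Set X :=
  {z | ‖z‖ ≤ 1 ∧ ∃ s : Bool, 1 + ‖x‖ - 1 / ((k : ℝ) + 1) < ‖x + sg s • z‖}

theorem exists_finite (h : ADPc X) (x y : X) (k : ℕ) : ∃ F : Finset X, ‖x‖ ≤ 1 → ‖y‖ ≤ 1 →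
    (F : Set X) ⊆ M x k ∧ ∃ u ∈ convexHull ℝ (F : Set X), ‖y - u‖ < 1 / ((k : ℝ) + 1) := by
  by_cases hx : ‖x‖ ≤ 1
  · by_cases hy : ‖y‖ ≤ 1
    · have hk : (0 : ℝ) < 1 / ((k : ℝ) + 1) := by positivity
      have h1 := h x y hx hy _ hk
      obtain ⟨u, hu, huy⟩ := Metric.mem_closure_iff.1 h1 _ hk
      rw [convexHull_eq_union_convexHull_finite_subsets] at hu
      simp only [Set.mem_iUnion, exists_prop] at hu
      obtain ⟨F, hF, huF⟩ := hu
      refine ⟨F, fun _ _ => ⟨hF, u, huF, ?_⟩⟩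
      rwa [dist_eq_norm] at huy
    · exact ⟨∅, fun _ h2 => absurd h2 hy⟩
  · exact ⟨∅, fun h2 _ => absurd h2 hx⟩

theorem norm_sg (s : Bool) (z : X) : ‖sg s • z‖ = ‖z‖ := by
  cases s <;> simp [sg]

end SEPA

theorem prf_SEPA : S_SEPA := by
  intro X _ _ h
  choose F hF using SEPA.exists_finite h
  refine ⟨fun x y k => (F x y k : Set X), fun x y k => (F x y k).countable_toSet, ?_⟩
  intro Y D _ hDn hdense hZ x y hx hy ε hε
  rw [Metric.mem_closure_iff]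
  intro ε' hε'
  obtain ⟨k, hk⟩ := exists_nat_gt (4 / min ε ε')
  have hmin : 0 < min ε ε' := lt_min hε hε'
  have hk1 : (0 : ℝ) < (k : ℝ) + 1 := by positivity
  have hk2 : 4 * (1 / ((k : ℝ) + 1)) < min ε ε' := by
    rw [div_lt_iff₀ hmin] at hk
    rw [mul_one_div, div_lt_iff₀ hk1]
    nlinarith
  have hkpos : (0 : ℝ) < 1 / ((k : ℝ) + 1) := by positivity
  set κ : ℝ := 1 / ((k : ℝ) + 1) with hκ
  have hε1 : 4 * κ < ε := hk2.trans_le (min_le_left _ _)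
  have hε2 : 4 * κ < ε' := hk2.trans_le (min_le_right _ _)
  obtain ⟨x', hx'D, hx'⟩ := hdense x x.2 hx κ hkpos
  obtain ⟨y', hy'D, hy'⟩ := hdense y y.2 hy κ hkpos
  obtain ⟨hFM, u, hu, hyu⟩ := hF x' y' k (hDn x' hx'D) (hDn y' hy'D)
  have hFY : (F x' y' k : Set X) ⊆ (Y : Set X) := hZ x' hx'D y' hy'D k
  -- pull back to `Y`
  have himg : (Y.subtype : Y →ₗ[ℝ] X) '' ((Y.subtype : Y →ₗ[ℝ] X) ⁻¹' (F x' y' k : Set X)) =
      (F x' y' k : Set X) := by
    rw [Set.image_preimage_eq_iff]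
    intro z hz
    exact ⟨⟨z, hFY hz⟩, rfl⟩
  rw [← himg, ← LinearMap.image_convexHull] at hu
  obtain ⟨v, hv, rfl⟩ := hu
  refine ⟨v, ?_, ?_⟩
  · refine convexHull_mono ?_ hv
    intro z hz
    obtain ⟨hz1, s, hz2⟩ := hFM hz
    refine ⟨hz1, s, ?_⟩
    have h3 : ‖x' + sg s • (z : X)‖ ≤ ‖(x : X) + sg s • (z : X)‖ + ‖(x : X) - x'‖ := by
      have e : x' + sg s • (z : X) = ((x : X) + sg s • (z : X)) - ((x : X) - x') := by abel
      rw [e]
      exact norm_sub_le _ _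
    have h4 : ‖(x : X)‖ ≤ ‖x'‖ + ‖(x : X) - x'‖ := by
      have e : (x : X) = x' + ((x : X) - x') := by abel
      conv_lhs => rw [e]
      exact norm_add_le _ _
    have h5 : 1 + ‖x'‖ - κ < ‖x' + sg s • (z : X)‖ := hz2
    have h6 : ‖(x : Y) + sg s • z‖ = ‖(x : X) + sg s • (z : X)‖ := rfl
    have h7 : ‖x‖ = ‖(x : X)‖ := rfl
    rw [h6, h7]
    linarith
  · rw [dist_eq_norm]
    have h8 : ‖y - v‖ = ‖(y : X) - (v : X)‖ := rfl
    rw [h8]
    have e : (y : X) - (v : X) = ((y : X) - y') + (y' - (v : X)) := by abel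
    rw [e]
    have h9 := norm_add_le ((y : X) - y') (y' - (v : X))
    have h10 : ‖y' - (v : X)‖ < κ := hyu
    linarith

end MPbb13ef
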