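import Pool.Agent.Work.MP_bb13ef_an.Bd.B04
import Pool.Agent.Work.MP_bb13ef_an.ACL.Final

set_option autoImplicit false

namespace MPbb13ef

theorem FIN2 : S_FIN2 := prf_FIN2 prf_MAIN prf_HULL

theorem FIN3 : S_FIN3 := prf_FIN3 prf_MAIN prf_HULL

end MPbb13ef
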